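import Pool.Agent.W558.S2.Stms2
import Pool.Agent.W558.S.FinalP
import Pool.Agent.W22.W558Restr

set_option autoImplicit false
set_option linter.unusedVariables false

/-!
W558b-FINR of helper558's project on MP_19ffc6_ag: resolution of algebras generated by monomials
on a stage, and change of the functions of a stage.
-/

universe u

open Polynomial AlgebraicGeometry CategoryTheory Pool.Agent.H920R2

namespace Pool.Agent.W63.R558Finr

open Pool.Agent.W558

theorem main : Pool.Agent.W558.S2_finr.{u} := by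
  intro k K _ _ _ G _ g Q Ds hSta G' _ e A _ _ _ j hj hjr hfrac
  obtain ⟨-, -, -, T, I, i1, i2, i3, M, Γ, B, b, hFn, -, -⟩ := hSta
  have hmono := fn_mono hFn e
  have hfr : ∀ x : K, ∃ a ∈ j.range, ∃ b ∈ j.range, b ≠ 0 ∧ x = a * b⁻¹ := by
    intro x
    obtain ⟨a, b, hb, rfl⟩ := hfrac x
    refine ⟨_, ⟨a, rfl⟩, _, ⟨b, rfl⟩, ?_, ?_⟩
    · intro h
      exact hb (hj (h.trans (map_zero j).symm))
    · rw [div_eq_mul_inv]
      rfl
  obtain ⟨T2, I2, j1, j2, M2, Γ2, -, -⟩ := Pool.Agent.W22.W558Restr.main k K T I G' M _ _ hmono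
    Set.univ j.range (by rw [Set.image_univ]; exact hjr) hfr
  exact hasResolution_of_LM j hj M2

theorem mono : Pool.Agent.W558.S2_mono.{u} := by
  intro k K _ _ _ G G' _ g Q Q' Ds Ds' hSta e hQ hDs
  subst hQ
  obtain ⟨h1, h2, h3, T, I, i1, i2, i3, M, Γ, B, b, hFn, hLD, hBas⟩ := hSta
  have hg : ∀ a, g a ≠ 0 ∨ IsEmpty T := by
    intro a
    rcases isEmpty_or_nonempty T with hT | ⟨⟨t⟩⟩
    · exact Or.inr hT
    · left
      obtain ⟨w, hw, -, -, hgw⟩ := hFn a t
      rw [hgw]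
      exact mul_ne_zero hw (Finset.prod_ne_zero_iff.2 fun i _ => zpow_ne_zero _ (M.x0 t i))
  have hT : Nonempty T := by
    obtain ⟨t, -⟩ := M.cv ⊤ (fun a _ => trivial)
    exact ⟨t⟩
  have hg0 : ∀ a, g a ≠ 0 := fun a => (hg a).resolve_right (fun h => not_isEmpty_of_nonempty T h)
  refine ⟨?_, ?_, ?_, T, I, i1, i2, i3, M, _, B, b, fn_mono hFn e, fun D hD => hLD D (hDs hD), ?_⟩
  · intro a
    refine ⟨Q.prod_mem fun b _ => zpow_mem_of (h1 b).1 (Or.inr (h1 b).2), ?_⟩
    rw [← Finset.prod_inv_distrib]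
    refine Q.prod_mem fun b _ => ?_
    rw [← zpow_neg]
    exact zpow_mem_of (h1 b).1 (Or.inr (h1 b).2)
  · exact fun D hD => h2 D (hDs hD)
  · intro D hD a
    choose χ hχ using fun b => h3 D (hDs hD) b
    exact ⟨_, der_mono D Finset.univ g hg0 χ hχ (e a)⟩
  · exact
    { A := hBas.A
      x := hBas.x
      BA := hBas.BA
      ft := hBas.ft
      bB := hBas.bB
      b0 := hBas.b0
      DB := fun D hD => hBas.DB D (hDs hD)
      BQ := hBas.BQ
      cof := hBas.cof
      bx := hBas.bx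
      sub := hBas.sub }

end Pool.Agent.W63.R558Finr
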